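import Pool.Agent.H39.VQ.Targets

/-!
# Module AL (MP_e21eee_nt, board vq_modules): the choice of `b`
-/

set_option autoImplicit false

open Finset Polynomial

namespace Pool.Agent.H51.VQ

open Pool.Agent.H11.CV Pool.Agent.H39.VQ

theorem al : V_AL := by
  intro C₀ P C₁ γ hP hC₁ hγ hγ1
  set σ : ℝ := 1 / (2 - γ) with hσ
  have h2γ : 0 < 2 - γ := by linarith
  have hσpos : 0 < σ := by positivity
  have hσ1 : σ ≤ 1 := by
    rw [hσ, div_le_one h2γ]
    linarith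
  have hσeq : σ * (2 - γ) = 1 := by
    rw [hσ]
    field_simp
  have hlog2 : 0 < Real.log 2 := Real.log_pos (by norm_num)
  set κ : ℝ := 1 / Real.log 2 with hκ
  have hκpos : 0 < κ := by positivity
  have hlogP : 0 ≤ Real.log P := Real.log_nonneg hP
  set c : ℝ := (C₀ : ℝ) with hc
  have hc0 : 0 ≤ c := Nat.cast_nonneg _
  refine ⟨c * κ ^ 2 + c * κ + c * (c * κ ^ 2 + c * κ + 2 * c * Real.log P * κ ^ 2 + 12 * C₁),
    by positivity, ?_⟩
  intro n hn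
  have hn1 : (1 : ℝ) ≤ n := by exact_mod_cast hn
  have hnpos : (0 : ℝ) < n := by linarith
  set N : ℝ := (n : ℝ) ^ σ with hN
  have hN1 : 1 ≤ N := Real.one_le_rpow hn1 hσpos.le
  have hNpos : 0 < N := by linarith
  have hNn : N ≤ n := by
    calc N = (n : ℝ) ^ σ := rfl
      _ ≤ (n : ℝ) ^ (1 : ℝ) := Real.rpow_le_rpow_of_exponent_le hn1 hσ1
      _ = n := Real.rpow_one _
  set L : ℝ := Real.log ((n : ℝ) + 1) with hL
  have hL2 : Real.log 2 ≤ L := Real.log_le_log (by norm_num) (by linarith)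
  have hLpos : 0 < L := lt_of_lt_of_le hlog2 hL2
  have hκL : 1 ≤ κ * L := by
    rw [hκ, one_div, inv_mul_eq_div, le_div_iff₀ hlog2]
    linarith
  have hκL2 : 1 ≤ κ ^ 2 * L ^ 2 := by
    rw [← mul_pow]
    exact one_le_pow₀ hκL
  have hLκ : L ≤ κ * L ^ 2 := by nlinarith
  have hL20 : 0 ≤ κ * L ^ 2 := by positivity
  have hNL : L ≤ κ * (N * L ^ 2) := by nlinarith
  have hκNL : 1 ≤ κ ^ 2 * (N * L ^ 2) := by nlinarith
  have hκN : N ≤ κ ^ 2 * (N * L ^ 2) := by nlinarith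
  -- the choice
  set b : ℕ := ⌈N⌉₊ with hb
  have hbN : N ≤ (b : ℝ) := Nat.le_ceil _
  have hb1 : 1 ≤ b := by
    have : (1 : ℝ) ≤ b := hN1.trans hbN
    exact_mod_cast this
  have hb2 : (b : ℝ) ≤ 2 * N := by
    have := Nat.ceil_lt_add_one hNpos.le
    linarith
  have hbpos : (0 : ℝ) < b := by linarith
  have hb2n : (b : ℝ) ≤ 2 * n := by linarith
  refine ⟨b, hb1, ?_⟩
  -- factor (a)
  have ha : c ≤ Real.exp (c * κ ^ 2 * (N * L ^ 2)) := by
    have h1 : c ≤ Real.exp c := (Real.add_one_le_exp c).trans' (by linarith)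
    refine h1.trans (Real.exp_le_exp.2 ?_)
    nlinarith
  -- factor (b)
  have hb' : ((n : ℝ) + 1) ^ C₀ ≤ Real.exp (c * κ * (N * L ^ 2)) := by
    have h1 : ((n : ℝ) + 1) ^ C₀ = Real.exp (c * L) := by
      rw [hL, hc, Real.exp_nat_mul, Real.exp_log (by linarith)]
    rw [h1]
    refine Real.exp_le_exp.2 ?_
    nlinarith
  -- factor (c)
  have hc' : P ^ (C₀ * b) ≤ Real.exp (2 * c * Real.log P * κ ^ 2 * (N * L ^ 2)) := by
    have h1 : P ^ (C₀ * b) = Real.exp (((C₀ * b : ℕ) : ℝ) * Real.log P) := by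
      rw [Real.exp_nat_mul, Real.exp_log (by linarith)]
    rw [h1]
    refine Real.exp_le_exp.2 ?_
    have h2 : ((C₀ * b : ℕ) : ℝ) = c * b := by push_cast; rfl
    rw [h2]
    calc c * (b : ℝ) * Real.log P ≤ c * (2 * N) * Real.log P := by gcongr
      _ = 2 * c * Real.log P * N := by ring
      _ ≤ 2 * c * Real.log P * (κ ^ 2 * (N * L ^ 2)) := by gcongr
      _ = 2 * c * Real.log P * κ ^ 2 * (N * L ^ 2) := by ring
  -- factor (d)
  have hd' : (Real.exp (C₁ * (b : ℝ) ^ γ * Real.log ((b : ℝ) + 1) ^ 2)) ^ (n / b + 1) ≤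
      Real.exp (12 * C₁ * (N * L ^ 2)) := by
    rw [← Real.exp_nat_mul]
    refine Real.exp_le_exp.2 ?_
    have h1 : ((n / b + 1 : ℕ) : ℝ) ≤ 3 * ((n : ℝ) / b) := by
      have h2 : ((n / b : ℕ) : ℝ) ≤ (n : ℝ) / b := Nat.cast_div_le
      have h3 : (1 : ℝ) ≤ 2 * ((n : ℝ) / b) := by
        rw [← mul_div_assoc, le_div_iff₀ hbpos]
        linarith
      push_cast
      linarith
    have h2 : Real.log ((b : ℝ) + 1) ≤ 2 * L := by
      have h3 : (2 : ℝ) * L = Real.log (((n : ℝ) + 1) ^ 2) := by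
        rw [Real.log_pow]
        norm_num [hL]
      rw [h3]
      exact Real.log_le_log (by linarith) (by nlinarith)
    have hlogb : 0 ≤ Real.log ((b : ℝ) + 1) := Real.log_nonneg (by linarith)
    have hbγ : 0 ≤ (b : ℝ) ^ γ := Real.rpow_nonneg hbpos.le _
    have h4 : (n : ℝ) / b * (b : ℝ) ^ γ ≤ N := by
      have h5 : (n : ℝ) / b * (b : ℝ) ^ γ = n * (b : ℝ) ^ (γ - 1) := by
        rw [Real.rpow_sub hbpos, Real.rpow_one]
        field_simp
      rw [h5]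
      have h6 : (b : ℝ) ^ (γ - 1) ≤ N ^ (γ - 1) :=
        Real.rpow_le_rpow_of_nonpos hNpos hbN (by linarith)
      have h7 : (n : ℝ) * N ^ (γ - 1) = N := by
        rw [hN, ← Real.rpow_mul hnpos.le]
        nth_rewrite 1 [← Real.rpow_one (n : ℝ)]
        rw [← Real.rpow_add hnpos]
        congr 1
        linear_combination (-1 : ℝ) * hσeq
      calc (n : ℝ) * (b : ℝ) ^ (γ - 1) ≤ n * N ^ (γ - 1) := by gcongr
        _ = N := h7
    calc ((n / b + 1 : ℕ) : ℝ) * (C₁ * (b : ℝ) ^ γ * Real.log ((b : ℝ) + 1) ^ 2)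
        ≤ (3 * ((n : ℝ) / b)) * (C₁ * (b : ℝ) ^ γ * (2 * L) ^ 2) := by gcongr
      _ = 12 * C₁ * (((n : ℝ) / b * (b : ℝ) ^ γ) * L ^ 2) := by ring
      _ ≤ 12 * C₁ * (N * L ^ 2) := by gcongr
  -- assembly
  have hin : c * ((n : ℝ) + 1) ^ C₀ * P ^ (C₀ * b) *
      (Real.exp (C₁ * (b : ℝ) ^ γ * Real.log ((b : ℝ) + 1) ^ 2)) ^ (n / b + 1) ≤
      Real.exp ((c * κ ^ 2 + c * κ + 2 * c * Real.log P * κ ^ 2 + 12 * C₁) * (N * L ^ 2)) := by
    have h1 : Real.exp ((c * κ ^ 2 + c * κ + 2 * c * Real.log P * κ ^ 2 + 12 * C₁) *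
        (N * L ^ 2)) =
        Real.exp (c * κ ^ 2 * (N * L ^ 2)) * Real.exp (c * κ * (N * L ^ 2)) *
          Real.exp (2 * c * Real.log P * κ ^ 2 * (N * L ^ 2)) *
            Real.exp (12 * C₁ * (N * L ^ 2)) := by
      rw [← Real.exp_add, ← Real.exp_add, ← Real.exp_add]
      congr 1
      ring
    rw [h1]
    gcongr
  have hfin : Real.exp ((c * κ ^ 2 + c * κ + c * (c * κ ^ 2 + c * κ +
      2 * c * Real.log P * κ ^ 2 + 12 * C₁)) * N * L ^ 2) =
      Real.exp (c * κ ^ 2 * (N * L ^ 2)) * Real.exp (c * κ * (N * L ^ 2)) *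
        (Real.exp ((c * κ ^ 2 + c * κ + 2 * c * Real.log P * κ ^ 2 + 12 * C₁) *
          (N * L ^ 2))) ^ C₀ := by
    rw [← Real.exp_nat_mul, ← Real.exp_add, ← Real.exp_add]
    congr 1
    ring
  rw [hfin]
  have h0 : 0 ≤ c * ((n : ℝ) + 1) ^ C₀ * P ^ (C₀ * b) *
      (Real.exp (C₁ * (b : ℝ) ^ γ * Real.log ((b : ℝ) + 1) ^ 2)) ^ (n / b + 1) := by positivity
  gcongr

end Pool.Agent.H51.VQ
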